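import Mathlib
import Pool.Agent.H786Z.St.Main

set_option autoImplicit false

open Pool.Agent.H786Z.St

/-- There is a smooth, spacelike, zero mean curvature, complete, properly embedded surface in
Lorentz 4-space, parametrised by the plane minus the two points `1` and `-1` (a sphere with three
punctures), whose total absolute Gaussian curvature is infinite. -/
theorem Pool.Agent.Results.MP_7009f9_gt.Counterexample.result :
    ∃ X : ℂ → Fin 4 → ℝ,
      ContDiffOn ℝ ((⊤ : ℕ∞) : WithTop ℕ∞) X ({1, -1} : Set ℂ)ᶜ ∧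
      Spacelike X ({1, -1} : Set ℂ)ᶜ ∧
      ZeroMeanCurvature X ({1, -1} : Set ℂ)ᶜ ∧
      Complete X ({1, -1} : Set ℂ)ᶜ ∧
      ProperlyEmbedded X ({1, -1} : Set ℂ)ᶜ ∧
      totalAbsCurvature X ({1, -1} : Set ℂ)ᶜ = ⊤ :=
  ⟨X, smooth_X, spacelike_X, zeroH_X, complete_X, proper_X, total_X⟩
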